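import Pool.Agent.H13.EDM.Targets

/-!
# Mixed degrees, module BND: the intersection numbers are bounded
-/

set_option autoImplicit false

open Pool.Agent.H8.TD (lc dg Wsp)
open Pool.Agent.H13.EDM

namespace Pool.Agent.H67.EDM

theorem Wsp_elim {κ C : Type} [Field κ] [Field C] [Algebra κ C] {a : ℕ} (f : Fin a → C)
    (x y : ℕ) : Wsp κ f (Fin.elim0 : Fin 0 → C) x y = Wsp κ f (Fin.elim0 : Fin 0 → C) x 0 := by
  unfold Wsp
  congr 1
  ext q
  simp

theorem pf_BND (hGRW : T_GRW) (hDLG : T_DLG) (hLM0 : T_LM0) : T_BND := by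
  intro n a k κ C _ _ _ _ _ _ _ _ φ htr hfg
  classical
  haveI : Infinite κ := Infinite.of_injective (algebraMap k κ) (algebraMap k κ).injective
  obtain ⟨S, hS⟩ := hfg
  set T : Finset C := S ∪ (Finset.univ : Finset (Fin n × Fin a)).image (fun x => φ x.1 x.2)
    with hTdef
  set f : Fin T.card → C := fun i => (T.equivFin.symm i : C) with hfdef
  have hf : ∀ x ∈ T, x ∈ Set.range f := by
    intro x hx
    refine ⟨T.equivFin ⟨x, hx⟩, ?_⟩
    simp only [hfdef]
    rw [Equiv.symm_apply_apply]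
  have hφ : ∀ i j, φ i j ∈ Set.range f := by
    intro i j
    apply hf
    rw [hTdef]
    exact Finset.mem_union_right _ (Finset.mem_image_of_mem (fun x : Fin n × Fin a => φ x.1 x.2)
      (Finset.mem_univ (i, j)))
  have hadj : IntermediateField.adjoin κ
      (Set.range f ∪ Set.range (Fin.elim0 : Fin 0 → C)) = ⊤ := by
    rw [eq_top_iff, ← hS]
    apply IntermediateField.adjoin.mono
    intro x hx
    exact Or.inl (hf x (Finset.mem_union_left _ hx))
  obtain ⟨R, hR⟩ := hGRW n T.card κ C f htr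
  refine ⟨n.factorial * R, fun s => ?_⟩
  have hmem : ∀ i, ∃ c : Fin T.card → k, lc c f = lc (s i) (φ i) := by
    intro i
    have h1 : lc (s i) (φ i) ∈ Submodule.span k (Set.range f) := by
      unfold lc
      exact Submodule.sum_mem _ fun j _ =>
        Submodule.smul_mem _ _ (Submodule.subset_span (hφ i j))
    obtain ⟨c, hc⟩ := (Submodule.mem_span_range_iff_exists_fun k).1 h1
    exact ⟨c, hc⟩
  choose s' hs' using hmem
  obtain ⟨n₀, hn₀⟩ := hDLG n 0 T.card 0 k κ C f (Fin.elim0 : Fin 0 → C) s'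
    (Fin.elim0 : Fin 0 → Fin 0 → k) (by simpa using htr) hadj
  apply hLM0 n _ R (n₀ + 1)
  intro m
  have h1 := hn₀ m 0
  rw [Wsp_elim] at h1
  have h2 := h1.trans (hR (m + n₀))
  have h3 : (Set.range (fun i => lc (s' i) f) ∪
      Set.range fun i : Fin 0 => lc ((Fin.elim0 : Fin 0 → Fin 0 → k) i)
        (Fin.elim0 : Fin 0 → C)) = Set.range fun i => lc (s i) (φ i) := by
    have h4 : (fun i => lc (s' i) f) = fun i => lc (s i) (φ i) := funext hs'
    rw [h4]
    have h5 : (Set.range fun i : Fin 0 => lc ((Fin.elim0 : Fin 0 → Fin 0 → k) i)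
        (Fin.elim0 : Fin 0 → C)) = ∅ := Set.range_eq_empty _
    rw [h5, Set.union_empty]
  rw [h3] at h2
  simpa [add_assoc] using h2

end Pool.Agent.H67.EDM
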